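import Pool.Agent.Q196.RG.ConvS

/-!
# Convex functions on surfaces in the four-ball

Let `F` be a compact smooth surface in the unit ball of four-space (any genus, any number of
boundary components, properly and transversally embedded) and let `h` be any smooth convex function
on the closed ball whose restriction to `F` is a Morse function in the open ball, has no critical
point on the boundary of `F` and has at most `m` local maxima in the open ball. Then there is a
diffeomorphism `G` from the closed ball minus an interior point `q` outside of `F` to the closed
ball minus the centre, equal to the identity on the boundary sphere, such that on the surface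
`G(F)`, which is diffeomorphic to `F` and has the same boundary, the distance from the centre is a
Morse function with at most `m` local maxima in the interior.

For `m = 0` this is a ribbon surface of the same genus. So the ribbon genus and the slice genus of a
knot coincide as soon as the slice genus is realised by a surface on which some smooth convex
function has no local maxima in the interior.
-/

set_option autoImplicit false

namespace Pool.Agent.Results.MP_177a0e_gt.ConvexFunctions

open Pool.Agent.Y503.RB Pool.Agent.Q196.SR Pool.Agent.Q196.RG
open Metric
open scoped ContDiff

theorem result (F : Set E4) (hF : PSurf F) (m : ℕ) (h : E4 → ℝ) (V : Set E4)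
    (hV : IsOpen V) (hVs : closedBall (0 : E4) 1 ⊆ V) (hs : ContDiffOn ℝ ∞ h V)
    (hc : ConvexOn ℝ (closedBall (0 : E4) 1) h) (hm : MorseOn h F)
    (hmax : {p : E4 | p ∈ F ∧ ‖p‖ < 1 ∧ IsLocalMaxOn h F p}.encard ≤ m) :
    ∃ (q : E4) (G : E4 → E4), BallDiffeo q G ∧ q ∉ F ∧ PSurf (G '' F) ∧
      G '' F ∩ sphere 0 1 = F ∩ sphere 0 1 ∧ MorseSurf (G '' F) m :=
  convex_surf hF hV hVs hs hc hm hmax

end Pool.Agent.Results.MP_177a0e_gt.ConvexFunctions
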