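import Pool.Agent.Q196.HS.SurfT

/-!
# Surfaces whose projection to three-space has small total positive curvature

Let `F` be a compact smooth surface (any genus, any number of boundary components) properly and
transversally embedded in the closed upper half-space `{x : x 3 ≥ 0}` of four-space, with at most
countably many points at which the tangent plane of `F` is vertical (a generic surface has only
finitely many). If the total positive Gauss curvature of the projection of `F` to three-space, the
integral of the positive part of the Gauss curvature with respect to the area, is less than
`4 π (m + 1)`, then the heights can be changed, by a diffeomorphism `G` of the half-space which moves
all points vertically and is the identity on the boundary hyperplane, so that the height is a Morse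
function on the surface `G(F)`, which is diffeomorphic to `F` and has the same projection and the
same boundary, with at most `m` local minima at positive heights.

So a knot has a ribbon surface of genus `g` as soon as it bounds an immersed surface of genus `g` in
three-space (with double curves and triple points of any kind) of total positive curvature less than
`4 π` which lifts to an embedded surface in the half-space.
-/

set_option autoImplicit false

namespace Pool.Agent.Results.MP_177a0e_gt.ProjectedCurvature

open Pool.Agent.Y503.RB Pool.Agent.Q196.HS

theorem result (F : Set E4) (hF : HSurf F) (m : ℕ) (hC : (VertSet F).Countable)
    (hT : surfPosCurv F < ENNReal.ofReal (4 * Real.pi * (m + 1))) :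
    ∃ G : E4 → E4, HalfDiffeo G ∧ HSurf (G '' F) ∧
      G '' F ∩ {x | x 3 = 0} = F ∩ {x | x 3 = 0} ∧ MorseHSurf (G '' F) m :=
  curv_surfH hF m hC hT

end Pool.Agent.Results.MP_177a0e_gt.ProjectedCurvature
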