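import Pool.Agent.Q196.HS.SurfP

/-!
# Surfaces in the half-space and functions on three-space

Let `F` be a compact smooth surface (any genus, any number of boundary components) properly and
transversally embedded in the closed upper half-space `{x : x 3 ≥ 0}` of four-space, and let `H` be
any smooth function on three-space whose restriction to the vertical projection of `F` is a Morse
function at positive heights, has no critical points on the boundary of `F` and has at most `m` local
maxima at positive heights. Then the heights can be changed, by a diffeomorphism `G` of the
half-space which moves all points vertically and is the identity on the boundary hyperplane, so that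
the height is a Morse function on the surface `G(F)`, which is diffeomorphic to `F` and has the same
projection and the same boundary, with at most `m` local minima at positive heights.

For `m = 0` this is a ribbon surface of the same genus (in the unit ball the distance from the
centre decreases with the height; no interior local maxima of the distance from the centre). So the
ribbon genus of a knot equals its slice genus as soon as the slice genus is realised by a surface on
whose projection some function of three variables has no interior local maxima.
-/

set_option autoImplicit false

namespace Pool.Agent.Results.MP_177a0e_gt.ProjectedFunctions

open Pool.Agent.Y503.RB Pool.Agent.Q196.HS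
open scoped ContDiff

theorem result (F : Set E4) (hF : HSurf F) (m : ℕ) (H : E3 → ℝ) (hH : ContDiff ℝ ∞ H)
    (hm : MorseOnH H F)
    (hmax : {p : E4 | p ∈ F ∧ 0 < p 3 ∧ IsLocalMaxOn (fun x => H (pr3 x)) F p}.encard ≤ m) :
    ∃ G : E4 → E4, HalfDiffeo G ∧ HSurf (G '' F) ∧
      G '' F ∩ {x | x 3 = 0} = F ∩ {x | x 3 = 0} ∧ MorseHSurf (G '' F) m :=
  proj_surf hF hH hm hmax

end Pool.Agent.Results.MP_177a0e_gt.ProjectedFunctions
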