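import Pool.Agent.Q196.RG.MainS

/-!
# Total curvature and Willmore energy of surfaces in the four-ball

Let `F` be a compact smooth surface in the unit ball of four-space (any genus, properly and
transversally embedded). Its total curvature here is the integral of `det II_n` over all unit normal
vectors `n` of `F` for which the second fundamental form `II_n` is negative definite (`2 π²` is the
value for a convex closed surface in a 3-space). If it is less than `2 π² (m + 1)`, in particular if
the Willmore energy of `F` (integral of the squared length of the mean curvature vector) is less
than `4 π (m + 1)`, then a diffeomorphism from the closed ball minus an interior point outside of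
`F` to the closed ball minus its centre, equal to the identity on the boundary sphere, turns `F`
into a surface of the same genus with the same boundary on which the distance from the centre is a
Morse function with at most `m` local maxima in the interior.

So a knot has a ribbon surface of genus `g` as soon as it bounds a surface of genus `g` of Willmore
energy less than `4 π` in the ball (for instance a minimal surface).
-/

set_option autoImplicit false

namespace Pool.Agent.Results.MP_177a0e_gt.WillmoreEnergy

open Pool.Agent.Y503.RB Pool.Agent.Q196.SR Pool.Agent.Q196.RG
open MeasureTheory Metric

theorem result (F : Set E4) (hF : PSurf F) (m : ℕ)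
    (h : surfCurv F < ENNReal.ofReal (2 * Real.pi ^ 2 * (m + 1)) ∨
      surfWillmore F < ENNReal.ofReal (4 * Real.pi * (m + 1))) :
    ∃ (q : E4) (G : E4 → E4), BallDiffeo q G ∧ q ∉ F ∧ PSurf (G '' F) ∧
      G '' F ∩ sphere 0 1 = F ∩ sphere 0 1 ∧ MorseSurf (G '' F) m :=
  curvature_surf hF m (h.elim id (willmore_surf m))

end Pool.Agent.Results.MP_177a0e_gt.WillmoreEnergy
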